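import Mathlib

set_option autoImplicit false

namespace Pool.Agent.Results.MP_8ee885_co.EvenRank

open Finset TensorProduct

/-- `𝔽₂^r` -/
abbrev V (r : ℕ) : Type := Fin r → ZMod 2

/-- Laplacian of the Cayley multigraph of the list `v` -/
def lap {r n : ℕ} (v : Fin n → V r) : Matrix (V r) (V r) ℤ := fun w w' =>
  if w = w' then n else -((univ.filter fun i => w + v i = w').card : ℤ)

/-- `dim_{𝔽₂} (ℤ/2 ⊗ T)` for the torsion part `T` of an abelian group `A` -/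
noncomputable def torsionRank (A : Type) [AddCommGroup A] : ℕ :=
  Module.finrank (ZMod 2) (ZMod 2 ⊗[ℤ] Submodule.torsion ℤ A)

/-- `d(M) = dim K ⊗ ℤ/2`, the sandpile group `K` being the torsion part of the cokernel of the
Laplacian -/
noncomputable def d {r n : ℕ} (v : Fin n → V r) : ℕ :=
  torsionRank ((V r → ℤ) ⧸ LinearMap.range (lap v).mulVecLin)

/-- the eigenvalue `λ_u` -/
def eig {r n : ℕ} (v : Fin n → V r) (u : V r) : ℤ := n - ∑ i, (-1) ^ (u ⬝ᵥ v i).val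

/-- the multiplicity `μ_u` -/
def mult {r n : ℕ} (v : Fin n → V r) (u : V r) : ℕ := (univ.filter fun i => v i = u).card

def M : Fin 5 → V 2 := ![![1, 0], ![1, 0], ![1, 0], ![0, 1], ![1, 1]]

abbrev K {r n : ℕ} (v : Fin n → V r) : Type :=
  Submodule.torsion ℤ ((V r → ℤ) ⧸ LinearMap.range (lap v).mulVecLin)

theorem sumV (f : V 2 → ℤ) : ∑ w, f w = f ![0, 0] + f ![1, 0] + f ![0, 1] + f ![1, 1] := by
  have : (univ : Finset (V 2)) = {![0, 0], ![1, 0], ![0, 1], ![1, 1]} := by decide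
  rw [this, sum_insert (by decide), sum_insert (by decide), sum_insert (by decide), sum_singleton]
  ring

def lap' (w w' : V 2) : ℤ := if w = w' then 5 else if w + w' = ![1, 0] then -3 else -1

theorem lapM (y : V 2 → ℤ) : (lap M).mulVec y ![0, 0] =
      5 * y ![0, 0] - 3 * y ![1, 0] - y ![0, 1] - y ![1, 1] ∧
    (lap M).mulVec y ![1, 0] = 5 * y ![1, 0] - 3 * y ![0, 0] - y ![0, 1] - y ![1, 1] ∧
    (lap M).mulVec y ![0, 1] = 5 * y ![0, 1] - 3 * y ![1, 1] - y ![0, 0] - y ![1, 0] ∧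
    (lap M).mulVec y ![1, 1] = 5 * y ![1, 1] - 3 * y ![0, 1] - y ![0, 0] - y ![1, 0] := by
  have e0 : lap M = Matrix.of lap' := by decide +kernel
  have e : ∀ w w' : V 2, lap M w w' = if w = w' then (5 : ℤ) else
      if w + w' = (![1, 0] : V 2) then -3 else -1 := fun w w' => by rw [e0]; rfl
  simp +decide only [Matrix.mulVec, dotProduct, sumV, e, if_true, if_false]
  omega

theorem extV {x y : V 2 → ℤ} (h : x ![0, 0] = y ![0, 0] ∧ x ![1, 0] = y ![1, 0] ∧
    x ![0, 1] = y ![0, 1] ∧ x ![1, 1] = y ![1, 1]) : x = y := by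
  funext w
  have : w = ![0, 0] ∨ w = ![1, 0] ∨ w = ![0, 1] ∨ w = ![1, 1] := by revert w; decide
  rcases this with rfl | rfl | rfl | rfl <;> simp only [h]

def vec (a b c e : ℤ) : V 2 → ℤ := fun w =>
  if w = ![0, 0] then a else if w = ![1, 0] then b else if w = ![0, 1] then c else e

theorem vec_val (a b c e : ℤ) : vec a b c e ![0, 0] = a ∧ vec a b c e ![1, 0] = b ∧
    vec a b c e ![0, 1] = c ∧ vec a b c e ![1, 1] = e := ⟨rfl, rfl, rfl, rfl⟩

abbrev R := LinearMap.range (lap M).mulVecLin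

theorem tors (x : V 2 → ℤ) : R.mkQ x ∈ Submodule.torsion ℤ ((V 2 → ℤ) ⧸ R) ↔
    x ![0, 0] + x ![1, 0] + x ![0, 1] + x ![1, 1] = 0 := by
  constructor
  · rintro ⟨⟨a, ha⟩, h⟩
    rw [Submonoid.mk_smul, ← map_smul, Submodule.mkQ_apply, Submodule.Quotient.mk_eq_zero] at h
    obtain ⟨y, hy⟩ := h
    have h1 := lapM y
    rw [show (lap M).mulVec y = a • x from hy] at h1
    simp only [Pi.smul_apply, smul_eq_mul] at h1
    apply mul_left_cancel₀ (nonZeroDivisors.ne_zero ha)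
    linarith [h1.1, h1.2.1, h1.2.2.1, h1.2.2.2]
  · intro h
    refine ⟨⟨16, by simp⟩, ?_⟩
    rw [Submonoid.mk_smul, ← map_smul, Submodule.mkQ_apply, Submodule.Quotient.mk_eq_zero]
    refine ⟨vec (3 * x ![0, 0] + x ![1, 0]) (3 * x ![1, 0] + x ![0, 0])
      (3 * x ![0, 1] + x ![1, 1]) (3 * x ![1, 1] + x ![0, 1]), extV ?_⟩
    simp only [Matrix.mulVecLin_apply, lapM, vec_val, Pi.smul_apply, smul_eq_mul]
    omega

def phi0 : (V 2 → ℤ) →ₗ[ℤ] ZMod 2 × ZMod 2 where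
  toFun x := (((x ![1, 0] - x ![0, 0] : ℤ) : ZMod 2), ((x ![0, 1] - x ![0, 0] : ℤ) : ZMod 2))
  map_add' x y := by ext <;> simp <;> ring
  map_smul' a x := by ext <;> simp <;> ring

theorem phi0_eq (x : V 2 → ℤ) : phi0 x = 0 ↔
    (2 : ℤ) ∣ x ![1, 0] - x ![0, 0] ∧ (2 : ℤ) ∣ x ![0, 1] - x ![0, 0] := by
  change (_, _) = (0, 0) ↔ _
  rw [Prod.mk.injEq, ZMod.intCast_zmod_eq_zero_iff_dvd, ZMod.intCast_zmod_eq_zero_iff_dvd]
  rfl

noncomputable def phi : K M →ₗ[ℤ] ZMod 2 × ZMod 2 :=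
  (R.liftQ phi0 (by
    rintro _ ⟨y, rfl⟩
    rw [LinearMap.mem_ker, phi0_eq]
    simp only [Matrix.mulVecLin_apply, lapM]
    omega)).comp (Submodule.subtype _)

theorem phi_surj : Function.Surjective phi := by
  rintro ⟨a, b⟩
  refine ⟨⟨R.mkQ (vec 0 a.val b.val (-a.val - b.val)), (tors _).2 (by simp only [vec_val]; ring)⟩, ?_⟩
  change phi0 _ = _
  simp [phi0, vec_val]

theorem phi_ker : LinearMap.ker phi = Ideal.span {((2 : ℕ) : ℤ)} • ⊤ := by
  ext z
  rw [Submodule.ideal_span_singleton_smul, Submodule.mem_smul_pointwise_iff_exists,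
    LinearMap.mem_ker]
  constructor
  · obtain ⟨z, hz⟩ := z
    obtain ⟨x, rfl⟩ := R.mkQ_surjective z
    intro h
    have h1 := (tors x).1 hz
    have h2 := (phi0_eq x).1 h
    let t := x ![0, 0] % 2
    refine ⟨⟨R.mkQ (vec ((x ![0, 0] - 5 * t) / 2) ((x ![1, 0] + 3 * t) / 2) ((x ![0, 1] + t) / 2)
      ((x ![1, 1] + t) / 2)), (tors _).2 (by simp only [vec_val]; omega)⟩, trivial,
      Subtype.ext ?_⟩
    change ((2 : ℕ) : ℤ) • R.mkQ _ = R.mkQ x
    rw [← map_smul, Submodule.mkQ_apply, Submodule.mkQ_apply, Submodule.Quotient.eq]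
    refine ⟨vec (-t) 0 0 0, extV ?_⟩
    simp only [Matrix.mulVecLin_apply, lapM, vec_val, Pi.smul_apply, smul_eq_mul, Pi.sub_apply]
    omega
  · rintro ⟨y, -, rfl⟩
    rw [map_smul]
    generalize phi y = s
    revert s
    decide

theorem d_M : d M = 2 := by
  have e1 : ZMod 2 ⊗[ℤ] K M ≃ₗ[ℤ] ZMod 2 × ZMod 2 :=
    (TensorProduct.congr (Int.quotientSpanNatEquivZMod 2).symm.toAddEquiv.toIntLinearEquiv
      (LinearEquiv.refl ℤ _)).trans ((TensorProduct.quotTensorEquivQuotSMul _ _).trans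
        ((Submodule.quotEquivOfEq _ _ phi_ker.symm).trans (phi.quotKerEquivOfSurjective phi_surj)))
  have : Finite (ZMod 2 ⊗[ℤ] K M) := Finite.of_equiv _ e1.symm.toEquiv
  have h := Module.natCard_eq_pow_finrank (K := ZMod 2) (V := ZMod 2 ⊗[ℤ] K M)
  rw [Nat.card_congr e1.toEquiv, Nat.card_prod, Nat.card_zmod] at h
  exact (Nat.pow_right_injective le_rfl (h.symm.trans (by norm_num : 2 * 2 = 2 ^ 2)))

/-- For `M = (e₁, e₁, e₁, e₂, e₁ + e₂)` the valuations are not all equal but `d(M) = 2`. -/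
theorem result : ∃ (r n : ℕ) (v : Fin n → V r), 1 ≤ r ∧ (∀ i, v i ≠ 0) ∧
    Submodule.span (ZMod 2) (Set.range v) = ⊤ ∧ (univ.erase 0).gcd (mult v) = 1 ∧
    (∃ u u' : V r, u ≠ 0 ∧ u' ≠ 0 ∧ padicValInt 2 (eig v u) ≠ padicValInt 2 (eig v u')) ∧
    Even (d v) := by
  refine ⟨2, 5, M, by omega, by decide, ?_, by decide +kernel,
    ⟨![1, 0], ![0, 1], by decide, by decide, ?_⟩, by rw [d_M]; decide⟩
  · rw [eq_top_iff]
    rintro u -
    have : u = u 0 • M 0 + u 1 • M 3 := by revert u; decide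
    rw [this]
    exact Submodule.add_mem _ (Submodule.smul_mem _ _ (Submodule.subset_span ⟨_, rfl⟩))
      (Submodule.smul_mem _ _ (Submodule.subset_span ⟨_, rfl⟩))
  · have h1 : eig M ![1, 0] = ((2 ^ 3 : ℕ) : ℤ) := by decide +kernel
    have h2 : eig M ![0, 1] = ((2 ^ 2 : ℕ) : ℤ) := by decide +kernel
    rw [h1, h2, padicValInt.of_nat, padicValInt.of_nat, padicValNat.prime_pow,
      padicValNat.prime_pow]
    omega

end Pool.Agent.Results.MP_8ee885_co.EvenRank
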